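import Pool.Agent.Y840.CB.Avoid

/-!
# Few rational points in all sets that are invariant under multiplication by `b` and not dense

For every `b ≥ 2` all but `O (Q ^ (1 + ε))` of the fractions `p / q`, `0 ≤ p < q ≤ Q`, have the property
that the first `A (log Q / log b + 1)` points of the orbit of `p / q` under multiplication by `b` modulo one
come within `δ` of every point of the circle. Hence every set `K` of reals that is invariant under
multiplication by `b` modulo one and not dense modulo one (all missing-digit sets in every base, all proper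
subshifts) contains only `O (Q ^ (1 + ε))` fractions with denominator at most `Q`. For the middle-third
Cantor set this answers the question: `N_j = O (2 ^ (ς j))` for every `ς > log 3 / log 2`.
-/

set_option autoImplicit false

namespace Pool.Agent.Results.MP_0581eb_nt.AllInvariantSets

/-- the number of the pairs of integers `0 ≤ p < q ≤ Q` for which `p / q` has the property `P` -/
noncomputable def Cnt (Q : ℕ) (P : ℝ → Prop) : ℕ :=
  {pq : ℕ × ℕ | pq.1 < pq.2 ∧ pq.2 ≤ Q ∧ P ((pq.1 : ℝ) / (pq.2 : ℝ))}.ncard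

/-- the orbit `x, b x, …, b ^ (I - 1) x` modulo one stays away from some point `m`, at distance `≥ δ` -/
def Avoids (b I : ℕ) (δ x : ℝ) : Prop :=
  ∃ m : ℝ, ∀ i < I, ∀ l : ℤ, δ ≤ |(b : ℝ) ^ i * x - m - l|

/-- `K` is invariant under multiplication by `b` modulo one -/
def Invariant (b : ℕ) (K : Set ℝ) : Prop := ∀ x ∈ K, ∃ y ∈ K, ∃ n : ℤ, (b : ℝ) * x = y + n

/-- `K` is not dense modulo one: an interval contains no `y + n`, `y ∈ K`, `n` an integer -/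
def NotDense (K : Set ℝ) : Prop := ∃ c d : ℝ, c < d ∧ ∀ y ∈ K, ∀ n : ℤ, y + n ∉ Set.Ioo c d

/-- `N_j`: the number of pairs `(p, q)` of coprime natural numbers with `0 ≤ p < q`,
`3^j ≤ q < 3^(j+1)` and `p / q` in the middle-third Cantor set. -/
noncomputable def Nj (j : ℕ) : ℕ :=
  {pq : ℕ × ℕ | pq.1 < pq.2 ∧ Nat.Coprime pq.1 pq.2 ∧ 3 ^ j ≤ pq.2 ∧ pq.2 < 3 ^ (j + 1) ∧
    ((pq.1 : ℝ) / (pq.2 : ℝ)) ∈ cantorSet}.ncard

theorem finite_pairs (Q : ℕ) (P : ℝ → Prop) :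
    {pq : ℕ × ℕ | pq.1 < pq.2 ∧ pq.2 ≤ Q ∧ P ((pq.1 : ℝ) / (pq.2 : ℝ))}.Finite := by
  apply ((Finset.range (Q + 1) ×ˢ Finset.range (Q + 1)).finite_toSet).subset
  rintro ⟨p, q⟩ ⟨h1, h2, -⟩
  simp only at h1 h2
  simp only [Finset.coe_product, Finset.coe_range, Set.mem_prod, Set.mem_Iio]
  omega

theorem Cnt_mono {Q : ℕ} {P P' : ℝ → Prop} (h : ∀ x, P x → P' x) : Cnt Q P ≤ Cnt Q P' :=
  Set.ncard_le_ncard (fun _ hpq => ⟨hpq.1, hpq.2.1, h _ hpq.2.2⟩) (finite_pairs Q P')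

open scoped Classical in
theorem Cnt_le_N (b I F : ℕ) (η : ℝ) (Q : ℕ) :
    Cnt Q (Pool.Agent.Y840.CB.Bad b I F η) ≤ Pool.Agent.Y840.CB.N b I F η Q := by
  unfold Cnt Pool.Agent.Y840.CB.N
  set G : Finset (Σ _ : ℕ, ℕ) := (Finset.Icc 1 Q).sigma (fun q => (Finset.range q).filter
    (fun p : ℕ => Pool.Agent.Y840.CB.Bad b I F η ((p : ℝ) / (q : ℝ)))) with hG
  have hcard : G.card = ∑ q ∈ Finset.Icc 1 Q, ((Finset.range q).filter
      (fun p : ℕ => Pool.Agent.Y840.CB.Bad b I F η ((p : ℝ) / (q : ℝ)))).card := Finset.card_sigma _ _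
  rw [← hcard]
  have hsub : {pq : ℕ × ℕ | pq.1 < pq.2 ∧ pq.2 ≤ Q ∧
      Pool.Agent.Y840.CB.Bad b I F η ((pq.1 : ℝ) / (pq.2 : ℝ))} ⊆
      ((G.image (fun x => (x.2, x.1)) : Finset (ℕ × ℕ)) : Set (ℕ × ℕ)) := by
    rintro ⟨p, q⟩ ⟨h1, h3, h5⟩
    simp only at h1 h3 h5
    rw [Finset.coe_image]
    refine ⟨⟨q, p⟩, ?_, rfl⟩
    rw [Finset.mem_coe, hG, Finset.mem_sigma, Finset.mem_Icc, Finset.mem_filter, Finset.mem_range]
    refine ⟨⟨?_, h3⟩, h1, h5⟩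
    simp only
    omega
  refine (Set.ncard_le_ncard hsub (Finset.finite_toSet _)).trans ?_
  rw [Set.ncard_coe_finset]
  exact Finset.card_image_le

theorem orbit {b : ℕ} {K : Set ℝ} (hK : Invariant b K) {x : ℝ} (hx : x ∈ K) (i : ℕ) :
    ∃ y ∈ K, ∃ n : ℤ, (b : ℝ) ^ i * x = y + n := by
  induction i with
  | zero => exact ⟨x, hx, 0, by simp⟩
  | succ i ih =>
    obtain ⟨y, hy, n, h⟩ := ih
    obtain ⟨z, hz, m, h'⟩ := hK y hy
    refine ⟨z, hz, m + b * n, ?_⟩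
    rw [pow_succ, mul_comm ((b : ℝ) ^ i) (b : ℝ), mul_assoc, h, mul_add, h']
    push_cast
    ring

theorem avoids_of_mem {b : ℕ} {K : Set ℝ} (hK : Invariant b K) {c d : ℝ}
    (h : ∀ y ∈ K, ∀ n : ℤ, y + n ∉ Set.Ioo c d) (I : ℕ) {x : ℝ} (hx : x ∈ K) :
    Avoids b I ((d - c) / 2) x := by
  refine ⟨(c + d) / 2, fun i _ l => ?_⟩
  obtain ⟨y, hy, n, hn⟩ := orbit hK hx i
  have h1 := h y hy (n - l)
  rw [Set.mem_Ioo, not_and_or, not_lt, not_lt] at h1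
  push_cast at h1
  rw [hn, le_abs]
  rcases h1 with h1 | h1
  · right
    linarith
  · left
    linarith

theorem invariant_cantor : Invariant 3 cantorSet := by
  intro x hx
  obtain ⟨y, hy, n, h⟩ := Pool.Agent.W51.CR.step hx
  exact ⟨y, hy, n, by exact_mod_cast h⟩

theorem notDense_cantor : NotDense cantorSet := by
  refine ⟨1 / 3, 2 / 3, by norm_num, fun y hy n => ?_⟩
  rw [Set.mem_Ioo]
  rintro ⟨h1, h2⟩
  have h3 := Pool.Agent.W51.CR.mem_thirds hy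
  have hy0 : 0 ≤ y := by
    rcases h3 with h3 | h3
    · exact h3.1
    · linarith [h3.1]
  have hy1 : y ≤ 1 := by
    rcases h3 with h3 | h3
    · linarith [h3.2]
    · exact h3.2
  have hn1 : (n : ℝ) < 1 := by linarith
  have hn2 : (-1 : ℝ) < n := by linarith
  have hn : n = 0 := by
    have a1 : n < 1 := by exact_mod_cast hn1
    have a2 : -1 < n := by exact_mod_cast hn2
    omega
  rw [hn] at h1 h2
  simp only [Int.cast_zero, add_zero] at h1 h2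
  rcases h3 with h3 | h3
  · linarith [h3.2]
  · linarith [h3.1]

/-- (1) For every `b ≥ 2` and `δ, ε > 0` there are `A`, `C` such that for all `Q ≥ 1` all but at most
`C Q ^ (1 + ε)` of the pairs `0 ≤ p < q ≤ Q` are such that the first `A (⌊log Q / log b⌋ + 1)` points of the
orbit of `p / q` under multiplication by `b` modulo one meet the open `δ`-neighbourhood of every point.
(2) So every set that is invariant under multiplication by `b ≥ 2` modulo one and not dense modulo one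
contains `O (Q ^ (1 + ε))` fractions with denominator at most `Q`. (3) For the middle-third Cantor set
`N_j = O (2 ^ (ς j))` for every `ς > log 3 / log 2`, and `log 3 / log 2 < 2`. -/
theorem result :
    (∀ b : ℕ, 2 ≤ b → ∀ δ : ℝ, 0 < δ → ∀ ε : ℝ, 0 < ε → ∃ A : ℕ, ∃ C : ℝ, ∀ Q : ℕ, 1 ≤ Q →
      (Cnt Q (Avoids b (A * (Nat.log b Q + 1)) δ) : ℝ) ≤ C * (Q : ℝ) ^ (1 + ε)) ∧
    (∀ b : ℕ, 2 ≤ b → ∀ K : Set ℝ, Invariant b K → NotDense K → ∀ ε : ℝ, 0 < ε → ∃ C : ℝ,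
      ∀ Q : ℕ, 1 ≤ Q → (Cnt Q (fun x => x ∈ K) : ℝ) ≤ C * (Q : ℝ) ^ (1 + ε)) ∧
    Real.logb 2 3 < 2 ∧
    ∀ ς : ℝ, Real.logb 2 3 < ς → ∃ C : ℝ, ∀ j : ℕ, 1 ≤ j → (Nj j : ℝ) ≤ C * (2 : ℝ) ^ (ς * (j : ℝ)) := by
  have H1 : ∀ b : ℕ, 2 ≤ b → ∀ δ : ℝ, 0 < δ → ∀ ε : ℝ, 0 < ε → ∃ A : ℕ, ∃ C : ℝ, ∀ Q : ℕ, 1 ≤ Q →
      (Cnt Q (Avoids b (A * (Nat.log b Q + 1)) δ) : ℝ) ≤ C * (Q : ℝ) ^ (1 + ε) := by
    intro b hb δ hδ ε hε
    obtain ⟨n, η, hη, hav⟩ := Pool.Agent.Y840.CB.avoid δ hδ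
    obtain ⟨A, C, hC, H⟩ := Pool.Agent.Y840.CB.few b n hb η hη ε hε
    refine ⟨A, C, fun Q hQ => ?_⟩
    obtain ⟨I, hI1, hI2, hI3⟩ := H Q hQ
    refine le_trans ?_ hI3
    have h1 : Cnt Q (Avoids b (A * (Nat.log b Q + 1)) δ) ≤ Cnt Q (Pool.Agent.Y840.CB.Bad b I n η) := by
      apply Cnt_mono
      rintro x ⟨m, hm⟩
      exact hav b I m x hI1 (fun i hi l => hm i (lt_of_lt_of_le hi hI2) l)
    exact_mod_cast h1.trans (Cnt_le_N b I n η Q)
  have H2 : ∀ b : ℕ, 2 ≤ b → ∀ K : Set ℝ, Invariant b K → NotDense K → ∀ ε : ℝ, 0 < ε → ∃ C : ℝ,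
      ∀ Q : ℕ, 1 ≤ Q → (Cnt Q (fun x => x ∈ K) : ℝ) ≤ C * (Q : ℝ) ^ (1 + ε) := by
    rintro b hb K hK ⟨c, d, hcd, hgap⟩ ε hε
    obtain ⟨A, C, H⟩ := H1 b hb ((d - c) / 2) (by linarith) ε hε
    refine ⟨C, fun Q hQ => le_trans ?_ (H Q hQ)⟩
    exact_mod_cast Cnt_mono (fun x hx => avoids_of_mem hK hgap _ hx)
  refine ⟨H1, H2, ?_, ?_⟩
  · rw [Real.logb_lt_iff_lt_rpow (by norm_num) (by norm_num)]
    norm_num
  · intro ς hς
    have hlpos : 0 < Real.logb 2 3 := Real.logb_pos (by norm_num) (by norm_num)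
    obtain ⟨ε, hε⟩ : ∃ ε : ℝ, ε = ς / Real.logb 2 3 - 1 := ⟨_, rfl⟩
    have hεpos : 0 < ε := by
      rw [hε, sub_pos, one_lt_div hlpos]
      exact hς
    obtain ⟨C, hC⟩ := H2 3 (by norm_num) cantorSet invariant_cantor notDense_cantor ε hεpos
    refine ⟨C * (3 : ℝ) ^ (1 + ε), fun j _ => ?_⟩
    have h1 : Nj j ≤ Cnt (3 ^ (j + 1)) (fun x => x ∈ cantorSet) := by
      apply Set.ncard_le_ncard _ (finite_pairs _ _)
      rintro ⟨p, q⟩ ⟨h1, -, -, h4, h5⟩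
      exact ⟨h1, h4.le, h5⟩
    have h2 : (Nj j : ℝ) ≤ Cnt (3 ^ (j + 1)) (fun x => x ∈ cantorSet) := by exact_mod_cast h1
    refine h2.trans ((hC (3 ^ (j + 1)) (Nat.one_le_pow _ _ (by norm_num))).trans (le_of_eq ?_))
    rw [mul_assoc]
    congr 1
    have h3 : (3 : ℝ) = (2 : ℝ) ^ (Real.logb 2 3) :=
      (Real.rpow_logb (by norm_num) (by norm_num) (by norm_num)).symm
    have h4 : ((3 ^ (j + 1) : ℕ) : ℝ) ^ (1 + ε) = (3 : ℝ) ^ (1 + ε) * (3 : ℝ) ^ ((1 + ε) * (j : ℝ)) := by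
      push_cast
      rw [← Real.rpow_natCast, ← Real.rpow_mul (by norm_num), ← Real.rpow_add (by norm_num)]
      congr 1
      push_cast
      ring
    rw [h4]
    congr 1
    conv_lhs => rw [h3]
    rw [← Real.rpow_mul (by norm_num)]
    congr 1
    rw [hε]
    field_simp
    ring

end Pool.Agent.Results.MP_0581eb_nt.AllInvariantSets
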